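import Pool.Agent.CHL.FINAL
import Pool.Agent.CHL.ISO1b
import Pool.Agent.CHL.ISO2
import Pool.Agent.CHL.PUSH
import Pool.Agent.CHL.EISF
import Pool.Agent.CHL.GENS
import Pool.Agent.CHL.FING
import Pool.Agent.CHL.TORS
import Pool.Agent.CHL.PARI
import Pool.Agent.CHL.UNIP
import Pool.Agent.CHL.STEPY
import Pool.Agent.CHL.STEPT
import Pool.Agent.CHL.WORDS
import Pool.Agent.CHL.ACTG
import Pool.Agent.CHL.PRDI
import Pool.Agent.CHL.FREE
import Pool.Agent.CHL.SIEG
import Pool.Agent.CHL.VOLU
import Pool.Agent.CHL.FIDX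
import Pool.Agent.CHL.INVM
import Pool.Agent.CHL.COVO

/-!
# A finite volume, negatively curved manifold whose fundamental group is not almost convex

`Gam` is the principal congruence subgroup of level `4` of `U(3,1; ℤ[ω])`: the invertible `4 × 4`
matrices over the Eisenstein integers that are congruent to `1` modulo `4` and preserve the
Hermitian form `x₁ȳ₄ + x₂ȳ₂ + x₃ȳ₃ + x₄ȳ₁` of signature `(3,1)`.
-/

namespace Pool.Agent.Results.MP_25a560_al.FiniteVolume

open Pool.Agent.CHL MeasureTheory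

/-- `Γ` acts by isometries, properly discontinuously, freely and with finite covolume on complex
hyperbolic `3`-space `SD` (so `Γ` is the fundamental group of the complete complex hyperbolic
manifold `Γ \ SD`, which has finite volume). Here `coshSq` is `cosh² (d / 2)` for the complex
hyperbolic distance `d`, and `ht⁻⁴` times the Lebesgue measure is the volume, up to a constant. -/
structure FiniteVolumeGroup (Γ : Subgroup M4ˣ) : Prop where
  /-- the elements of `Γ` map `SD` to itself and preserve the distance -/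
  isometric : ∀ g ∈ Γ, ∀ v ∈ SD, ∀ w ∈ SD,
    act (g : M4) v ∈ SD ∧ coshSq (act (g : M4) v) (act (g : M4) w) = coshSq v w
  /-- the action is a group action -/
  action : ∀ g ∈ Γ, ∀ h ∈ Γ, ∀ v ∈ SD,
    act ((g * h : M4ˣ) : M4) v = act (g : M4) (act (h : M4) v)
  /-- the action is properly discontinuous -/
  discontinuous : ∀ K : Set (ℂ × ℂ × ℂ), K ⊆ SD → IsCompact K →
    {g : M4ˣ | g ∈ Γ ∧ ∃ v ∈ K, act (g : M4) v ∈ K}.Finite
  /-- the action is free -/
  free : ∀ g ∈ Γ, ∀ v ∈ SD, act (g : M4) v = v → g = 1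
  /-- a measurable set of finite volume meets all orbits -/
  volume : ∃ F : Set (ℂ × ℂ × ℂ), F ⊆ SD ∧ MeasurableSet F ∧
    ∫⁻ v in F, ENNReal.ofReal (1 / ht v ^ 4) < ⊤ ∧ ∀ v ∈ SD, ∃ g ∈ Γ, act (g : M4) v ∈ F

/-- The group `Gam` acts by isometries, freely, properly discontinuously and with finite covolume on
complex hyperbolic `3`-space; it is finitely generated and has a finite generating set `S` such
that `(Gam, S)` is not almost convex. -/
theorem result : FiniteVolumeGroup Gam ∧ Group.FG Gam ∧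
    ∃ S : Set Gam, S.Finite ∧ Subgroup.closure S = ⊤ ∧ ¬ AlmostConvex S := by
  have hE := EISF_thm
  have hA := ACTG_thm
  have hU := UNIP_thm hE
  have hI := ISO2_thm ISO1_thm'
  have hF := FING_thm (GENS_thm hE)
  have hP := PRDI_thm hE hA
  refine ⟨⟨?_, ?_, ?_, FREE_thm hA hP TORS_thm,
    COVO_thm hA INVM_thm (SIEG_thm hE hA) VOLU_thm FIDX_thm⟩, hF,
    MAIN_thm PUSH_thm (RIDGE_thm hI) PARI_thm hF (STEPY_thm hE) (STEPT_thm hU) WORDS_thm⟩
  · exact fun g hg v hv w hw => ⟨(hA.1 _ v hg.1 hv).2.1, hA.2.2.2 _ v w hg.1 hv hw⟩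
  · exact fun g hg h hh v hv => hA.2.2.1 _ _ v hg.1 hh.1 hv
  · exact fun K hK hc => (hP K hK hc).subset fun g hg => ⟨Gam_le hg.1, hg.2⟩

end Pool.Agent.Results.MP_25a560_al.FiniteVolume
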