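import Pool.Agent.Lib_helper29.AC4

namespace Pool.Agent.Results.MP_25a560_al.SurfaceProducts

/-- The Cayley graph of `G` with respect to `S`: the vertices are the elements of `G`, and two
different elements `g`, `h` are adjacent if `g⁻¹ h` or `h⁻¹ g` lies in `S`. -/
def cayleyGraph {G : Type*} [Group G] (S : Set G) : SimpleGraph G :=
  SimpleGraph.fromRel (fun g h => g⁻¹ * h ∈ S)

/-- `(G, S)` is almost convex: there is a constant `C` such that for every `r`, any two points
`x`, `y` of the sphere of radius `r` about `1` with `d(x,y) = 2` are joined by a path of length at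
most `C` which stays in the ball of radius `r`. -/
def AlmostConvex {G : Type*} [Group G] (S : Set G) : Prop :=
  ∃ C : ℕ, ∀ (r : ℕ) (x y : G), (cayleyGraph S).dist 1 x = r → (cayleyGraph S).dist 1 y = r →
    (cayleyGraph S).dist x y = 2 →
    ∃ p : (cayleyGraph S).Walk x y, p.length ≤ C ∧ ∀ z ∈ p.support, (cayleyGraph S).dist 1 z ≤ r

/-- The relator `[a₁,b₁] ⋯ [a_g,b_g]`, where `a_i = (i, false)` and `b_i = (i, true)`. -/
def surfaceRelator (g : ℕ) : FreeGroup (Fin g × Bool) :=
  (List.ofFn (fun i : Fin g => FreeGroup.of (i, false) * FreeGroup.of (i, true) *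
    (FreeGroup.of (i, false))⁻¹ * (FreeGroup.of (i, true))⁻¹)).prod

/-- The fundamental group of the closed orientable surface of genus `g`, given by its standard
presentation. -/
abbrev SurfaceGroup (g : ℕ) : Type :=
  PresentedGroup ({surfaceRelator g} : Set (FreeGroup (Fin g × Bool)))

/-- For all `g, h ≥ 2` the product of the surface groups of genus `g` and `h` has a finite
generating set with respect to which it is not almost convex. -/
theorem result (g h : ℕ) (hg : 2 ≤ g) (hh : 2 ≤ h) :
    ∃ S : Set (SurfaceGroup g × SurfaceGroup h),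
      S.Finite ∧ Subgroup.closure S = ⊤ ∧ ¬ AlmostConvex S :=
  Lib_helper29.AC.surface_products hg hh

end Pool.Agent.Results.MP_25a560_al.SurfaceProducts
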